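import Pool.Agent.Work.MP_8f25a0_ex.B_CMB
import Pool.Agent.Work.MP_8f25a0_ex.B_RC0
import Pool.Agent.Work.MP_8f25a0_ex.B_RC1
import Pool.Agent.Work.MP_8f25a0_ex.B_RC2
import Pool.Agent.Work.MP_8f25a0_ex.B_RC3
import Pool.Agent.Work.MP_8f25a0_ex.B_RCD
import Pool.Agent.Work.MP_8f25a0_ex.B_ENG
import Pool.Agent.Work.MP_8f25a0_ex.B_GST
import Pool.Agent.Work.MP_8f25a0_ex.B_STP
import Pool.Agent.Work.MP_8f25a0_ex.B_COR
import Pool.Agent.Work.MP_8f25a0_ex.B_LOW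
import Pool.Agent.Work.MP_8f25a0_ex.B_TWO
import Pool.Agent.Work.MP_8f25a0_ex.B_FIN

/-!
# The query complexity of the distance to `k`-juntas for exponentially small `ε`: explicit rate
-/

namespace Pool.Agent.Results.MP_8f25a0_lc.ExplicitExponent

open Pool.Agent.Work.MP_8f25a0_lc

/-- There are `C ≥ 1` and positive functions `θ`, `K` on `(0, ∞)` with `K(c) = C` and
`θ(c) ≥ 1 - C / c` for `c ≥ 1` such that the following holds for all `c > 0`, `k ≥ 1`,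
`n ≥ (1 + c) * k` and `0 < ε < 1/4`, `ε ≤ 2 ^ (-c * k)`.  Let `L = log(min(n, 1/ε))` and
`m = min(2 ^ n, (2 ^ k + L) / ε ^ 2)`.  If `log n ≤ 2 ^ k` or `L / ε ^ 2 ≤ 2 ^ (n - k)` then
the query complexity `q(n, k, ε)` of approximating the distance to `k`-juntas within `± ε`
satisfies `m / (K(c) * k ^ 11 * 2 ^ ((1 - θ(c)) * k)) ≤ q(n, k, ε) ≤ 2000 * k * m`.  For `c ≥ k`
the two bounds differ by a polynomial in `k`. -/
theorem result : ∃ (C : ℝ) (θ K : ℝ → ℝ), 1 ≤ C ∧ (∀ c, 0 < c → 0 < θ c ∧ 0 < K c) ∧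
    (∀ c, 1 ≤ c → K c = C ∧ 1 - C / c ≤ θ c) ∧
    ∀ (c : ℝ) (n k : ℕ) (ε : ℝ), 0 < c → 1 ≤ k → (1 + c) * k ≤ n → 0 < ε → ε < 1 / 4 →
    ε ≤ 2 ^ (-(c * k)) →
    (Real.log n ≤ 2 ^ k ∨ Real.log (min n (1 / ε)) / ε ^ 2 ≤ 2 ^ n / 2 ^ k) →
    min (2 ^ n) ((2 ^ k + Real.log (min n (1 / ε))) / ε ^ 2) /
        (K c * (k : ℝ) ^ 11 * 2 ^ ((1 - θ c) * k)) ≤ queryComplexity n k ε ∧
    (queryComplexity n k ε : ℝ) ≤
      2000 * k * min (2 ^ n) ((2 ^ k + Real.log (min n (1 / ε))) / ε ^ 2) := by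
  have hENG := Ex.p_ENG Ex.p_CMB
  have hRC2 := Ex.p_RC2 Ex.p_RC1
  have hRCD := Ex.p_RCD Ex.p_RC0 hRC2 Ex.p_RC3
  have hGST := Ex.p_GST hENG
  have hSTP := Ex.p_STP hRCD hGST
  have hCOR := Ex.p_COR hSTP
  have hLOW := Ex.p_LOW hCOR
  have hTWO := Ex.p_TWO hLOW
  exact Ex.p_FIN hTWO

end Pool.Agent.Results.MP_8f25a0_lc.ExplicitExponent
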