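import Pool.Agent.Work.MP_8f25a0_lc.Cod.LowerFinal
import Pool.Agent.Work.MP_8f25a0_lc.Cod.UpperC

/-!
# The query complexity of the distance to `k`-juntas when `n - k` is fixed
-/

namespace Pool.Agent.Results.MP_8f25a0_lc.FixedCodimension

open Pool.Agent.Work.MP_8f25a0_lc

/-- Let `c ≥ 1`, `s ≥ 2`, `k ≥ 0` and `0 < ε` with `512 * 8 ^ c * ε ^ 2 ≤ 1` and
`100 * 2 ^ c * (k + c).choose c / ε ^ 2 ≤ 2 ^ ((1 - 1/s) * (k + 1))` (written below without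
the `s`-th root). Let `q(n, k, ε)` be the query complexity of approximating the distance to
`k`-juntas within `± ε` for functions of `n` variables. Then
`q(n, k, ε) ≥ (k + c).choose c / (2060 * (8 * s) ^ c * ε ^ 2)` for every `n ≥ k + c`, and
`q(k + c, k, ε) ≤ 2 * 10 ^ 5 * 2 ^ c * (k + c).choose c / ε ^ 2`.
So for fixed `c` and `s` the order of `q(k + c, k, ε)` is `k ^ c / ε ^ 2`, from `ε` equal to a
constant down to `ε` equal to `2 ^ (-(1 - 1/s) * k / 2)` times a power of `k`. -/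
theorem result (c s k : ℕ) (ε : ℝ) (hc : 1 ≤ c) (hs : 2 ≤ s) (hε : 0 < ε)
    (h8 : 512 * 8 ^ c * ε ^ 2 ≤ 1)
    (hk : (100 * 2 ^ c * ((k + c).choose c : ℝ) / ε ^ 2) ^ s ≤ 2 ^ ((s - 1) * (k + 1))) :
    (∀ n : ℕ, k + c ≤ n →
      ((k + c).choose c : ℝ) / (2060 * (8 * s) ^ c * ε ^ 2) ≤ queryComplexity n k ε) ∧
    (queryComplexity (k + c) k ε : ℝ) ≤ 2 * 10 ^ 5 * 2 ^ c * (k + c).choose c / ε ^ 2 := by
  refine ⟨fun n hn => Cod.lower_final hc hs hn hε h8 hk, Cod.upper c k hε ?_⟩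
  have h1 : (8 : ℝ) ≤ 8 ^ c := by
    calc (8 : ℝ) = 8 ^ 1 := (pow_one _).symm
      _ ≤ 8 ^ c := pow_le_pow_right₀ (by norm_num) hc
  have h2 : 0 < ε ^ 2 := by positivity
  nlinarith

end Pool.Agent.Results.MP_8f25a0_lc.FixedCodimension
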