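import Pool.Agent.Work.MP_8f25a0_lc.Final

/-!
# The query complexity of the distance to `k`-juntas, up to constants for every fixed `k`
-/

namespace Pool.Agent.Results.MP_8f25a0_lc.FixedKExact

open Pool.Agent.Work.MP_8f25a0_lc

/-- For `0 ≤ k < n` and `0 < ε < 1/4` let `L = log(min(n, 1/ε))`. The query complexity
`q(n, k, ε)` of approximating the distance to `k`-juntas within `± ε` is at least
`min(2^n, 1/ε^2) / 4000`, and at least `min(2^(n-k), L/ε^2) / (2·10^7·(1 + log k))` if `k ≥ 1`,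
and at most `2000·min(2^n, (2^k + k·L)/ε^2)`. In particular `q(n, k, ε)` is of the order
`min(2^n, L/ε^2)` for every fixed `k ≥ 1`, and of the order `min(2^n, 1/ε^2)` for `k = 0`. -/
theorem result (n k : ℕ) (ε : ℝ) (hk : k < n) (hε0 : 0 < ε) (hε : ε < 1 / 4) :
    min (2 ^ n) (1 / ε ^ 2) / 4000 ≤ (queryComplexity n k ε : ℝ) ∧
      (1 ≤ k → min (2 ^ n / 2 ^ k) (Real.log (min n (1 / ε)) / ε ^ 2) /
        (20000000 * (1 + Real.log k)) ≤ (queryComplexity n k ε : ℝ)) ∧
      (queryComplexity n k ε : ℝ) ≤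
        2000 * min (2 ^ n) ((2 ^ k + k * Real.log (min n (1 / ε))) / ε ^ 2) := by
  refine ⟨?_, fun h1 => explicit_lower h1 hk hε0 hε, upper_min (by omega) k hε0 hε⟩
  obtain ⟨A, hA⟩ := exists_approximates n k hε0.le
  have h := lower_bound hk hε0 hε hA
  linarith

end Pool.Agent.Results.MP_8f25a0_lc.FixedKExact
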