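import Pool.Agent.Work.MP_8f25a0_lc.Full.Lower3
import Pool.Agent.Work.MP_8f25a0_lc.Full.UpperD

/-!
# How much of the truth table may be left unread: the distance to `k`-juntas for very small `ε`
-/

namespace Pool.Agent.Results.MP_8f25a0_lc.FullReading

open Pool.Agent.Work.MP_8f25a0_lc

/-- Let `0 ≤ k < n`, `ε ≥ 0` and `δ = ε 2^n`. The query complexity `q = q(n, k, ε)` of
approximating the distance to the `k`-juntas within `± ε` is equal to `2^n` if and only if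
`δ < 1/2`. In general `2^n - q` is at most `20000 min(2^(n-k) δ², δ² + 2^n / 4^(2^(n-k)))`, and
for `δ ≥ 1/2` it is at least
`min(δ², 2^n) / (16 min(3 + k log n + 2^k, 4^(n-k) (3 + (n-k) log n)))`. -/
theorem result (n k : ℕ) (ε : ℝ) (hk : k < n) (hε : 0 ≤ ε) :
    (queryComplexity n k ε = 2 ^ n ↔ ε * 2 ^ n < 1 / 2) ∧
      (2 : ℝ) ^ n - 20000 * min (2 ^ (n - k) * (ε * 2 ^ n) ^ 2)
        ((ε * 2 ^ n) ^ 2 + 2 ^ n / 4 ^ (2 ^ (n - k))) ≤ (queryComplexity n k ε : ℝ) ∧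
      (1 / 2 ≤ ε * 2 ^ n → (queryComplexity n k ε : ℝ) ≤
        2 ^ n - min ((ε * 2 ^ n) ^ 2) (2 ^ n) / (16 * min (3 + k * Real.log n + 2 ^ k)
          (4 ^ (n - k) * (3 + (n - k : ℕ) * Real.log n)))) := by
  refine ⟨Full.eq_iff_half hk hε, Full.lower_min hk hε, fun h => ?_⟩
  rcases min_choice (3 + k * Real.log n + (2 : ℝ) ^ k)
    (4 ^ (n - k) * (3 + (n - k : ℕ) * Real.log n)) with h1 | h1
  · rw [h1]; exact Full.upper_min hk h
  · rw [h1]; exact Full.upper_codim_min hk h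

end Pool.Agent.Results.MP_8f25a0_lc.FullReading
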